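import Pool.Agent.P.MP_4a7a83_al.LIso
import Pool.Agent.P.MP_4a7a83_al.F.Top

/-! For every field `K`, the compact congruence semilattices of the variety generated by the
pentagon are compact congruence semilattices of members of the variety generated by the lattices
of subspaces of vector spaces over `K`. -/

set_option autoImplicit false

namespace Pool.Agent.Results.MP_4a7a83_al.PentagonSubspace

/-- A class of lattices closed under homomorphic images, sublattices and direct products. -/
def IsVariety (V : (α : Type) → [Lattice α] → Prop) : Prop :=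
  (∀ (A B : Type) [Lattice A] [Lattice B] (f : LatticeHom A B),
      Function.Surjective f → V A → V B) ∧
  (∀ (A B : Type) [Lattice A] [Lattice B] (f : LatticeHom A B),
      Function.Injective f → V B → V A) ∧
  (∀ (I : Type) (A : I → Type) [∀ i, Lattice (A i)], (∀ i, V (A i)) → V (∀ i, A i))

/-- `P` is a pentagon: its elements are `o < a < b < i` and `c`, with `a ⊔ c = i`, `b ⊓ c = o`. -/
def IsPentagon (P : Type) [Lattice P] : Prop :=
  ∃ o a b c i : P, o < a ∧ a < b ∧ b < i ∧ a ⊔ c = i ∧ b ⊓ c = o ∧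
    ∀ x : P, x = o ∨ x = a ∨ x = b ∨ x = c ∨ x = i

/-- `L` lies in the variety generated by the pentagon: the least variety that contains it. -/
def InPentagonVariety (L : Type) [Lattice L] : Prop :=
  ∀ V : (α : Type) → [Lattice α] → Prop, IsVariety V →
    (∀ (P : Type) [Lattice P], IsPentagon P → V P) → V L

/-- `M` lies in the variety generated by the lattices of all subspaces of `K`-vector spaces. -/
def InSubspaceVariety (K : Type) [Field K] (M : Type) [Lattice M] : Prop :=
  ∀ V : (α : Type) → [Lattice α] → Prop, IsVariety V →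
    (∀ (E : Type) [AddCommGroup E] [Module K E], V (Submodule K E)) → V M

/-- The congruence generated by the set of pairs `F`. -/
def Generated {L : Type} [Lattice L] (F : Set (L × L)) (a b : L) : Prop :=
  ∀ s : LatticeCon L, (∀ p ∈ F, s.r p.1 p.2) → s.r a b

/-- The finitely generated congruences of `L`. -/
def CompactCon (L : Type) [Lattice L] : Type :=
  {r : LatticeCon L // ∃ F : Set (L × L), F.Finite ∧ ∀ a b : L, r.r a b ↔ Generated F a b}

/-- Inclusion of congruences. -/
def Incl {L : Type} [Lattice L] (r s : CompactCon L) : Prop := ∀ a b : L, r.1.r a b → s.1.r a b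

open Pool.Agent.P.MP_4a7a83_al

theorem inV_of_pentagon (P : Type) [Lattice P] (h : IsPentagon P) : InV P := by
  classical
  obtain ⟨o, a, b, c, i, h1, h2, h3, h4, h5, h6⟩ := h
  have oc : o ≤ c := h5 ▸ inf_le_right
  have ci : c ≤ i := h4 ▸ le_sup_right
  have nac : ¬ a ≤ c := fun e => h1.not_ge (h5 ▸ le_inf h2.le e)
  have ncb : ¬ c ≤ b := fun e => h3.not_ge (h4 ▸ sup_le h2.le e)
  let g : N5 → P := fun x => match x with
    | .o => o | .a => a | .b => b | .c => c | .i => i
  have hg : ∀ x y, g x ≤ g y ↔ x ≤ y := by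
    have oa := h1.le
    have ab := h2.le
    have bi := h3.le
    have n1 := h1.not_ge
    have n2 := h2.not_ge
    have n3 := h3.not_ge
    have n4 : ¬ b ≤ o := fun e => n1 (ab.trans e)
    have n5 : ¬ i ≤ o := fun e => n4 (bi.trans e)
    have n6 : ¬ i ≤ a := fun e => n2 (bi.trans e)
    have n7 : ¬ c ≤ o := fun e => ncb (e.trans (oa.trans ab))
    have n8 : ¬ c ≤ a := fun e => ncb (e.trans ab)
    have n9 : ¬ b ≤ c := fun e => nac (ab.trans e)
    have n10 : ¬ i ≤ c := fun e => n9 (bi.trans e)
    have ob := oa.trans ab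
    have oi := ob.trans bi
    have ai := ab.trans bi
    intro x y
    cases x <;> cases y <;> simp only [g, *, le_refl, true_iff, false_iff] <;> decide
  have hs : Function.Surjective g := by
    intro x
    rcases h6 x with e | e | e | e | e
    · exact ⟨.o, e.symm⟩
    · exact ⟨.a, e.symm⟩
    · exact ⟨.b, e.symm⟩
    · exact ⟨.c, e.symm⟩
    · exact ⟨.i, e.symm⟩
  let e : N5 ≃o P := RelIso.ofSurjective (OrderEmbedding.ofMapLEIff g hg) hs
  intro x y hxy
  exact ⟨⟨⟨e.symm, e.symm.map_sup⟩, e.symm.map_inf⟩, fun k => hxy (e.symm.injective k)⟩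

/-- The two descriptions of the compact congruences agree. -/
def toC (L : Type) [Lattice L] : CompactCon L ≃ CCon L where
  toFun r := ⟨r.1.r, ⟨r.1.iseqv, fun _ _ _ _ h h' => ⟨r.1.sup h h', r.1.inf h h'⟩⟩, by
    obtain ⟨F, hF, h⟩ := r.2
    refine ⟨F, hF, fun a b => (h a b).trans ⟨fun k s hs => k
      { r := s, iseqv := hs.1, inf := fun e e' => (hs.2 _ _ _ _ e e').2,
        sup := fun e e' => (hs.2 _ _ _ _ e e').1 }, fun k s => k s.r
      ⟨s.iseqv, fun _ _ _ _ h h' => ⟨s.sup h h', s.inf h h'⟩⟩⟩⟩⟩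
  invFun r := ⟨{ r := r.1, iseqv := r.2.1.1, inf := fun e e' => (r.2.1.2 _ _ _ _ e e').2,
                 sup := fun e e' => (r.2.1.2 _ _ _ _ e e').1 }, by
    obtain ⟨F, hF, h⟩ := r.2.2
    refine ⟨F, hF, fun a b => (h a b).trans ⟨fun k s => k s.r
      ⟨s.iseqv, fun _ _ _ _ h h' => ⟨s.sup h h', s.inf h h'⟩⟩, fun k s hs => k
      { r := s, iseqv := hs.1, inf := fun e e' => (hs.2 _ _ _ _ e e').2,
        sup := fun e e' => (hs.2 _ _ _ _ e e').1 }⟩⟩⟩
  left_inv _ := rfl
  right_inv _ := rfl

theorem modular_of_mem (K : Type) [Field K] (M : Type) [Lattice M] (h : InSubspaceVariety K M) :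
    IsModularLattice M :=
  h (fun L _ => IsModularLattice L) ⟨fun _ _ _ _ => LE.modular_of_surj,
    fun _ _ _ _ => LE.modular_of_inj, fun _ => LE.modular_pi⟩ fun _ _ _ => inferInstance

theorem result (K : Type) [Field K] :
    IsVariety (fun L _ => InPentagonVariety L) ∧ IsVariety (fun M _ => InSubspaceVariety K M) ∧
    (∀ (L : Type) [Lattice L], InPentagonVariety L →
      ∃ (M : Type) (_ : Lattice M), InSubspaceVariety K M ∧ IsModularLattice M ∧
        ∃ e : CompactCon L ≃ CompactCon M, ∀ r s : CompactCon L, Incl (e r) (e s) ↔ Incl r s) ∧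
    ∃ (L : Type) (_ : Lattice L), InPentagonVariety L ∧ ¬ InSubspaceVariety K L ∧
      ¬ InSubspaceVariety K Lᵒᵈ := by
  refine ⟨⟨fun A B _ _ f hf h V hV hP => hV.1 A B f hf (h V hV hP),
      fun A B _ _ f hf h V hV hP => hV.2.1 A B f hf (h V hV hP),
      fun I A _ h V hV hP => hV.2.2 I A fun i => h i V hV hP⟩,
    ⟨fun A B _ _ f hf h V hV hP => hV.1 A B f hf (h V hV hP),
      fun A B _ _ f hf h V hV hP => hV.2.1 A B f hf (h V hV hP),
      fun I A _ h V hV hP => hV.2.2 I A fun i => h i V hV hP⟩, fun L _ hL => ?_, ?_⟩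
  · obtain ⟨M, i, hM, hV, ⟨e⟩⟩ := @MF.lifts ⟨K, inferInstance⟩ L _
      (hL (fun L _ => InV L) ⟨inV_surj, inV_inj, inV_pi⟩ inV_of_pentagon)
    exact ⟨M, i, fun V h h' => hV V h.1 h.2.1 h.2.2 h', hM,
      (toC L).trans (e.toEquiv.trans (toC M).symm),
      fun r s => e.le_iff_le (x := toC L r) (y := toC L s)⟩
  · have hN : ¬ IsModularLattice N5 := fun hN =>
      absurd (hN.sup_inf_le_assoc_of_le N5.c (show N5.a ≤ N5.b by decide)) (by decide)
    refine ⟨N5, inferInstance, fun V _ hP => hP N5 ⟨.o, .a, .b, .c, .i, ?_, ?_, ?_, by decide,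
      by decide, by decide⟩, fun h => hN (modular_of_mem K _ h), fun h => ?_⟩
    · exact lt_of_le_of_ne (by decide) (by decide)
    · exact lt_of_le_of_ne (by decide) (by decide)
    · exact lt_of_le_of_ne (by decide) (by decide)
    · have h2 := modular_of_mem K _ h
      exact hN (inferInstance : IsModularLattice N5ᵒᵈᵒᵈ)

end Pool.Agent.Results.MP_4a7a83_al.PentagonSubspace
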